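import Pool.Agent.NL.StmtsB

/-!
# NL, row ANK: the classes of a chain
-/

set_option autoImplicit false

noncomputable section

namespace Pool.Agent.NL.H84

theorem it_fix (s : ℕ → ℕ) (k : ℕ) (r j : ℕ) (hj : j < k) :
    (fun i => if i < k then i else s i)^[r] j = j := by
  induction r with
  | zero => rfl
  | succ r ih =>
    rw [Function.iterate_succ_apply]
    rw [if_pos hj]
    exact ih

theorem it_lt (s : ℕ → ℕ) (N : ℕ) (hs : ∀ i, 1 ≤ i → i < N → s i < i) (k : ℕ) (hk : 1 ≤ k) :
    ∀ r j, j < N → j ≤ r → (fun i => if i < k then i else s i)^[r] j < k := by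
  intro r
  induction r with
  | zero =>
    intro j _ hj
    have h0 : j = 0 := by omega
    rw [h0]
    exact hk
  | succ r ih =>
    intro j hjN hj
    by_cases hjk : j < k
    · rw [it_fix s k (r + 1) j hjk]
      exact hjk
    · rw [Function.iterate_succ_apply]
      rw [if_neg hjk]
      have h1 := hs j (by omega) hjN
      exact ih (s j) (by omega) (by omega)

theorem it_anc (s : ℕ → ℕ) (N : ℕ) (hs : ∀ i, 1 ≤ i → i < N → s i < i) (k : ℕ) (hk : 1 ≤ k)
    (r j : ℕ) (hj : j < N) (hr : j ≤ r) :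
    (fun i => if i < k then i else s i)^[r] j = NE.anc s k j := by
  obtain ⟨t, rfl⟩ := Nat.exists_eq_add_of_le' hr
  rw [Function.iterate_add_apply]
  exact it_fix s k t _ (it_lt s N hs k hk j j hj le_rfl)

theorem anc_s (s : ℕ → ℕ) (N : ℕ) (hs : ∀ i, 1 ≤ i → i < N → s i < i) (k : ℕ) (hk : 1 ≤ k)
    (j : ℕ) (hj : j < N) (hkj : k ≤ j) : NE.anc s k j = NE.anc s k (s j) := by
  have h1 := hs j (by omega) hj
  obtain ⟨i, rfl⟩ : ∃ i, j = i + 1 := ⟨j - 1, by omega⟩
  have h2 : NE.anc s k (i + 1) = (fun i => if i < k then i else s i)^[i + 1] (i + 1) := rfl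
  rw [h2, Function.iterate_succ_apply]
  rw [if_neg (by omega : ¬ i + 1 < k)]
  exact it_anc s N hs k hk i (s (i + 1)) (by omega) (by omega)

/-- ANK -/
theorem ank : AnkStmt := by
  intro s N hs k hk i hi
  refine ⟨it_lt s N hs k hk i i hi le_rfl, fun h => it_fix s k i i h, ?_⟩
  induction i using Nat.strong_induction_on with
  | _ i ih =>
    rcases lt_trichotomy i k with h | h | h
    · have h1 : NE.anc s (k + 1) i = i := it_fix s (k + 1) i i (by omega)
      have h2 : NE.anc s k i = i := it_fix s k i i h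
      rw [h1, h2, if_neg (by omega)]
    · subst h
      have h1 : NE.anc s (i + 1) i = i := it_fix s (i + 1) i i (by omega)
      rw [h1, if_pos rfl, anc_s s N hs i hk i hi le_rfl]
      exact it_fix s i (s i) (s i) (hs i hk hi)
    · have h1 := hs i (by omega) hi
      rw [anc_s s N hs k hk i hi h.le, anc_s s N hs (k + 1) (by omega) i hi h]
      exact ih (s i) h1 (by omega)

end Pool.Agent.NL.H84
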