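import Pool.Agent.NL.StmtsM

/-!
# NL, row POS: the weak derivative is far from `X` on a set of positive measure
-/

set_option autoImplicit false

open MeasureTheory Filter Topology Set

noncomputable section

namespace Pool.Agent.NL.H84

/-- the points where `G` has distance at least `1 / (n + 1)` from the dense sequence -/
def An {X : Type} [NormedAddCommGroup X] [NormedSpace ℝ X] (G : ℝ → Z) (Ψ : X →ₗᵢ[ℝ] Z)
    (y : ℕ → X) (n : ℕ) : Set ℝ := {x | ∀ q, 1 / ((n : ℝ) + 1) ≤ ‖G x - Ψ (y q)‖}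

theorem norm_meas (mea : MeaStmt) (G : ℝ → Z) (hm : ∀ k, Measurable fun w => G w k) (z : Z) :
    Measurable fun x => ‖G x - z‖ := by
  have h := (mea G hm).1 (-z) 1
  have e : (fun x => ‖G x - z‖) = fun x => ‖-z + (1 : ℝ) • G x‖ := by
    funext x
    rw [one_smul, neg_add_eq_sub]
  rw [e]
  exact h

theorem An_meas (mea : MeaStmt) {X : Type} [NormedAddCommGroup X] [NormedSpace ℝ X] (G : ℝ → Z)
    (hm : ∀ k, Measurable fun w => G w k) (Ψ : X →ₗᵢ[ℝ] Z) (y : ℕ → X) (n : ℕ) :
    MeasurableSet (An G Ψ y n) := by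
  have e : An G Ψ y n = ⋂ q, {x | 1 / ((n : ℝ) + 1) ≤ ‖G x - Ψ (y q)‖} := by
    ext x
    simp [An]
  rw [e]
  refine MeasurableSet.iInter fun q => ?_
  exact measurableSet_le measurable_const (norm_meas mea G hm _)

theorem An_rho {X : Type} [NormedAddCommGroup X] [NormedSpace ℝ X] (G : ℝ → Z)
    (Ψ : X →ₗᵢ[ℝ] Z) (y : ℕ → X) (hy : DenseRange y) (n : ℕ) (x : ℝ) (hx : x ∈ An G Ψ y n) :
    1 / ((n : ℝ) + 1) ≤ rho Ψ (G x) := by
  have hcl : IsClosed {u : X | 1 / ((n : ℝ) + 1) ≤ ‖G x - Ψ u‖} :=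
    isClosed_le continuous_const ((continuous_const.sub Ψ.continuous).norm)
  have hall : ∀ u : X, 1 / ((n : ℝ) + 1) ≤ ‖G x - Ψ u‖ := by
    intro u
    exact hy.induction_on (p := fun u => 1 / ((n : ℝ) + 1) ≤ ‖G x - Ψ u‖) u hcl hx
  refine (Metric.le_infDist (Set.range_nonempty _)).2 ?_
  rintro _ ⟨u, rfl⟩
  rw [dist_eq_norm]
  exact hall u

/-- POS -/
theorem pos (mea : MeaStmt) : PosStmt := by
  intro X _ _ _ _ f F G Ψ hC hnd
  by_contra hno
  apply hnd
  clear hnd
  let y : ℕ → X := TopologicalSpace.denseSeq X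
  have hy : DenseRange y := TopologicalSpace.denseRange_denseSeq X
  have hnull : ∀ n, volume (An G Ψ y n) = 0 := by
    intro n
    by_contra hne
    exact hno ⟨1 / ((n : ℝ) + 1), by positivity, An G Ψ y n, An_meas mea G hC.mea Ψ y n, hne,
      fun x hx => An_rho G Ψ y hy n x hx⟩
  have hae : ∀ᵐ x : ℝ, ∀ n, x ∉ An G Ψ y n := by
    rw [ae_all_iff]
    intro n
    exact measure_eq_zero_iff_ae_notMem.1 (hnull n)
  -- the strong derivative
  have hran : ∀ x, (∀ n, x ∉ An G Ψ y n) → ∃ u : X, Ψ u = G x := by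
    intro x hx
    have hcl : IsClosed (Set.range Ψ) := Ψ.isometry.isClosedEmbedding.isClosed_range
    have : G x ∈ closure (Set.range Ψ) := by
      rw [Metric.mem_closure_iff]
      intro ε hε
      obtain ⟨n, hn⟩ := exists_nat_one_div_lt hε
      have h1 := hx n
      simp only [An, Set.mem_ofPred_eq, not_forall, not_le] at h1
      obtain ⟨q, hq⟩ := h1
      exact ⟨Ψ (y q), ⟨y q, rfl⟩, by rw [dist_eq_norm]; exact hq.trans hn⟩
    rw [hcl.closure_eq] at this
    exact this
  classical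
  let γ : ℝ → X := fun x => if h : ∃ u : X, Ψ u = G x then h.choose else 0
  have hγ1 : ∀ x, (∃ u : X, Ψ u = G x) → Ψ (γ x) = G x := by
    intro x hx
    have e : γ x = hx.choose := dif_pos hx
    rw [e]
    exact hx.choose_spec
  have hγb : ∀ x, ‖γ x‖ ≤ 1 := by
    intro x
    by_cases hx : ∃ u : X, Ψ u = G x
    · have := hγ1 x hx
      rw [← Ψ.norm_map, this]
      exact hC.bdd x
    · have e : γ x = 0 := dif_neg hx
      rw [e, norm_zero]
      exact zero_le_one
  have hγae : ∀ᵐ x : ℝ, Ψ (γ x) = G x := by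
    filter_upwards [hae] with x hx
    exact hγ1 x (hran x hx)
  have hex : ∀ n : ℕ, ∀ x : ℝ, ∃ q : ℕ, ‖G x - Ψ (y q)‖ < 1 / ((n : ℝ) + 1) ∨ x ∈ An G Ψ y n := by
    intro n x
    by_cases hx : x ∈ An G Ψ y n
    · exact ⟨0, Or.inr hx⟩
    · have h1 := hx
      simp only [An, Set.mem_ofPred_eq, not_forall, not_le] at h1
      obtain ⟨q, hq⟩ := h1
      exact ⟨q, Or.inl hq⟩
  let κ : ℕ → ℝ → ℕ := fun n x => Nat.find (hex n x)
  have hκ : ∀ n, Measurable (κ n) := by
    intro n
    refine measurable_find (hex n) fun k => ?_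
    have h1 : MeasurableSet {x | ‖G x - Ψ (y k)‖ < 1 / ((n : ℝ) + 1)} :=
      measurableSet_lt (norm_meas mea G hC.mea _) measurable_const
    exact h1.union (An_meas mea G hC.mea Ψ y n)
  have hκ2 : ∀ n x, x ∉ An G Ψ y n → ‖G x - Ψ (y (κ n x))‖ < 1 / ((n : ℝ) + 1) := by
    intro n x hx
    exact (Nat.find_spec (hex n x)).resolve_right hx
  have hsm : ∀ n, StronglyMeasurable fun x => y (κ n x) := by
    intro n
    let iX : MeasurableSpace X := borel X
    have iB : BorelSpace X := ⟨rfl⟩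
    have h1 : Measurable fun x => y (κ n x) := (measurable_from_nat (f := y)).comp (hκ n)
    exact h1.stronglyMeasurable
  have hlim : ∀ᵐ x : ℝ, Tendsto (fun n => y (κ n x)) atTop (𝓝 (γ x)) := by
    filter_upwards [hae, hγae] with x hx hg
    rw [tendsto_iff_norm_sub_tendsto_zero]
    refine squeeze_zero (fun n => norm_nonneg _) (fun n => ?_)
      (tendsto_one_div_add_atTop_nhds_zero_nat (𝕜 := ℝ))
    have h1 := (hκ2 n x (hx n)).le
    rw [← hg, ← map_sub, Ψ.norm_map, norm_sub_rev] at h1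
    exact h1
  have hγm : AEStronglyMeasurable γ volume :=
    aestronglyMeasurable_of_tendsto_ae atTop (fun n => (hsm n).aestronglyMeasurable) hlim
  have hloc : LocallyIntegrable γ volume := by
    have hc : LocallyIntegrable (fun _ : ℝ => (1 : ℝ)) volume := locallyIntegrable_const 1
    refine hc.mono hγm (Eventually.of_forall fun x => ?_)
    rw [norm_one]
    exact hγb x
  have hii : ∀ a b : ℝ, IntervalIntegrable γ volume a b := fun a b =>
    (hloc.integrableOn_isCompact isCompact_uIcc).intervalIntegrable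
  have hint : ∀ a b : ℝ, a ≤ b → f b - f a = ∫ x in a..b, γ x := by
    intro a b hab
    apply Ψ.injective
    ext k
    rw [hC.psi, hC.psi, map_sub, hC.avg a b hab k,
      ← ContinuousLinearMap.intervalIntegral_comp_comm (F k) (hii a b)]
    refine intervalIntegral.integral_congr_ae ?_
    filter_upwards [hγae] with x hx _
    rw [← hC.psi, hx]
  have hint2 : ∀ b : ℝ, f b = f 0 + ∫ x in (0 : ℝ)..b, γ x := by
    intro b
    rcases le_total 0 b with h | h
    · rw [← hint 0 b h]
      abel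
    · rw [intervalIntegral.integral_symm, ← hint b 0 h]
      abel
  filter_upwards [_root_.LocallyIntegrable.ae_hasDerivAt_integral hloc] with t ht
  have h1 := (ht 0).differentiableAt
  have e : f = fun b => f 0 + ∫ x in (0 : ℝ)..b, γ x := by
    funext b
    exact hint2 b
  rw [e]
  exact h1.const_add _

end Pool.Agent.NL.H84
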